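import Mathlib

/-!
# MP_f11a48_ag, PROJECT S0, module TH: the Riemann theta function of genus `D`

`HH`: the matrices `tau` with positive definite imaginary part (no symmetry required).
`th tau w = sum_m exp (pi i m.tau m + 2 pi i m.w)`,
`Ks tau x w = sum_m exp (pi i (m+x).tau (m+x) + 2 pi i (m+x).w)`,
`Kl tau p q = exp (- pi i p.q) Ks tau p q` (real `p`, `q`).
-/

set_option autoImplicit false

open Filter Topology Metric Complex

open scoped Real

namespace Pool.Agent.Lib.MPf11a48.SH.TH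

variable {ι : Type} [Fintype ι]

/-- the imaginary part of the quadratic form -/
noncomputable def Q (τ : ι → ι → ℂ) (x : ι → ℝ) : ℝ := ∑ i, ∑ j, x i * x j * (τ i j).im

/-- the matrices with positive definite imaginary part -/
def HH (ι : Type) [Fintype ι] : Set (ι → ι → ℂ) := {τ | ∀ x : ι → ℝ, x ≠ 0 → 0 < Q τ x}

/-- the parameter space -/
abbrev PP (ι : Type) : Type := (ι → ι → ℂ) × (ι → ℂ)

/-- the exponent `pi i x.tau x + 2 pi i x.w`, a linear form in `(tau, w)` -/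
noncomputable def L (x : ι → ℂ) : PP ι →L[ℂ] ℂ :=
  ((π : ℂ) * I) • (∑ i, ∑ j, (x i * x j) •
      ((ContinuousLinearMap.proj j : (ι → ℂ) →L[ℂ] ℂ).comp
        (ContinuousLinearMap.proj i : (ι → ι → ℂ) →L[ℂ] (ι → ℂ)))).comp
      (ContinuousLinearMap.fst ℂ (ι → ι → ℂ) (ι → ℂ)) +
    (2 * (π : ℂ) * I) • (∑ i, x i • (ContinuousLinearMap.proj i : (ι → ℂ) →L[ℂ] ℂ)).comp
      (ContinuousLinearMap.snd ℂ (ι → ι → ℂ) (ι → ℂ))

theorem L_apply (x : ι → ℂ) (τ : ι → ι → ℂ) (w : ι → ℂ) :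
    L x (τ, w) = π * I * (∑ i, ∑ j, x i * x j * τ i j) + 2 * π * I * ∑ i, x i * w i := by
  simp only [L, add_apply, smul_apply,
    ContinuousLinearMap.comp_apply, sum_apply, ContinuousLinearMap.proj_apply,
    ContinuousLinearMap.coe_fst', ContinuousLinearMap.coe_snd', smul_eq_mul]

/-- the vector of an integral index -/
def ic (m : ι → ℤ) : ι → ℂ := fun i => (m i : ℂ)

/-- the vector of a real vector -/
def rc (x : ι → ℝ) : ι → ℂ := fun i => (x i : ℂ)

/-- the Riemann theta function -/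
noncomputable def th (τ : ι → ι → ℂ) (w : ι → ℂ) : ℂ := ∑' m : ι → ℤ, cexp (L (ic m) (τ, w))

/-- the theta function with a shift -/
noncomputable def Ks (τ : ι → ι → ℂ) (x : ι → ℂ) (w : ι → ℂ) : ℂ :=
  ∑' m : ι → ℤ, cexp (L (ic m + x) (τ, w))

/-- the normalised theta function of the real coordinates `p`, `q` of a point -/
noncomputable def Kl (τ : ι → ι → ℂ) (p q : ι → ℝ) : ℂ :=
  cexp (-(π * I * ∑ i, (p i : ℂ) * (q i : ℂ))) * Ks τ (rc p) (rc q)

/-- `tau x` symmetrised -/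
noncomputable def mv (τ : ι → ι → ℂ) (x : ι → ℂ) : ι → ℂ := fun i => ∑ j, (τ i j + τ j i) / 2 * x j

end Pool.Agent.Lib.MPf11a48.SH.TH
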