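import Pool.Agent.Lib.MP_f11a48_ag.SH.TH.Defs

/-!
# Module TH: Fourier series on the torus
-/

set_option autoImplicit false

open Filter Topology Metric Complex Finset MeasureTheory UnitAddTorus

open scoped Real

noncomputable section

local instance : MeasureSpace UnitAddCircle := ⟨AddCircle.haarAddCircle⟩

local instance : Measure.IsAddHaarMeasure (volume : Measure UnitAddCircle) :=
  inferInstanceAs (Measure.IsAddHaarMeasure AddCircle.haarAddCircle)

local instance : IsProbabilityMeasure (volume : Measure UnitAddCircle) :=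
  inferInstanceAs (IsProbabilityMeasure AddCircle.haarAddCircle)

namespace Pool.Agent.Lib.MPf11a48.SH.TH

variable {ι : Type}

/-- the projection to the torus -/
def pr (x : ι → ℝ) : UnitAddTorus ι := fun i => (x i : UnitAddCircle)

theorem pr_quotient : IsOpenQuotientMap (pr : (ι → ℝ) → UnitAddTorus ι) :=
  IsOpenQuotientMap.piMap fun _ => QuotientAddGroup.isOpenQuotientMap_mk

theorem exists_lift (H : (ι → ℝ) → ℂ) (hc : Continuous H)
    (hp : ∀ (x : ι → ℝ) (n : ι → ℤ), H (fun i => x i + (n i : ℝ)) = H x) :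
    ∃ f : C(UnitAddTorus ι, ℂ), ∀ x, f (pr x) = H x := by
  have h1 : ∀ x y : ι → ℝ, pr x = pr y → H x = H y := by
    intro x y hxy
    have h2 : ∀ i, ∃ n : ℤ, x i = y i + n := by
      intro i
      have h3 : (x i : UnitAddCircle) = (y i : UnitAddCircle) := congrFun hxy i
      have h4 : ((x i - y i : ℝ) : UnitAddCircle) = 0 := by
        rw [AddCircle.coe_sub, h3, sub_self]
      obtain ⟨n, hn⟩ := (AddCircle.coe_eq_zero_iff (1 : ℝ)).1 h4
      refine ⟨n, ?_⟩
      rw [zsmul_eq_mul, mul_one] at hn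
      linarith
    choose n hn using h2
    have h5 : x = fun i => y i + (n i : ℝ) := funext hn
    rw [h5, hp]
  let g := fun t : UnitAddTorus ι => H (Function.surjInv pr_quotient.surjective t)
  have hg : ∀ x, g (pr x) = H x := fun x => h1 _ _ (Function.surjInv_eq _ _)
  refine ⟨⟨g, ?_⟩, hg⟩
  have : g ∘ pr = H := funext hg
  exact pr_quotient.isQuotientMap.continuous_iff.2 (by rw [this]; exact hc)

variable [Fintype ι]

theorem mFourier_pr (n : ι → ℤ) (x : ι → ℝ) :
    mFourier n (pr x) = cexp (2 * π * I * ∑ i, (n i : ℂ) * (x i : ℂ)) := by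
  show ∏ i, fourier (n i) (pr x i) = _
  rw [Finset.mul_sum, Complex.exp_sum]
  refine Finset.prod_congr rfl fun i _ => ?_
  show fourier (n i) ((x i : ℝ) : UnitAddCircle) = _
  rw [fourier_coe_apply]
  congr 1
  push_cast
  ring

/-- a continuous function with vanishing Fourier coefficients is zero -/
theorem zero_of_coeff (f : C(UnitAddTorus ι, ℂ)) (h : ∀ n, mFourierCoeff f n = 0) : f = 0 := by
  have h1 : Summable (mFourierCoeff f) := by
    rw [show mFourierCoeff f = fun _ => 0 from funext h]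
    exact summable_zero
  have h2 := hasSum_mFourier_series_of_summable h1
  have h3 : HasSum (fun i => mFourierCoeff f i • mFourier i) (0 : C(UnitAddTorus ι, ℂ)) := by
    have : (fun i => mFourierCoeff f i • (mFourier i : C(UnitAddTorus ι, ℂ))) = fun _ => 0 := by
      funext i
      ext t
      simp [h i]
    rw [this]
    exact hasSum_zero
  exact h2.unique h3

/-- uniqueness of the coefficients of absolutely convergent Fourier series -/
theorem fourier_unique (a : (ι → ℤ) → ℂ) (ha : Summable fun m => ‖a m‖)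
    (h : ∀ x : ι → ℝ, ∑' m, a m * cexp (2 * π * I * ∑ i, (m i : ℂ) * (x i : ℂ)) = 0) (n : ι → ℤ) :
    a n = 0 := by
  have h1 : Summable fun m : ι → ℤ => a m • (mFourier m : C(UnitAddTorus ι, ℂ)) := by
    refine Summable.of_norm ?_
    refine ha.congr fun m => ?_
    rw [norm_smul, mFourier_norm, mul_one]
  have h2 : ∑' m : ι → ℤ, a m • (mFourier m : C(UnitAddTorus ι, ℂ)) = 0 := by
    ext t
    obtain ⟨x, rfl⟩ := pr_quotient.surjective t
    have h3 := (ContinuousMap.evalCLM ℂ (pr x)).map_tsum h1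
    have h4 : (∑' m : ι → ℤ, a m • (mFourier m : C(UnitAddTorus ι, ℂ))) (pr x) =
        ∑' m : ι → ℤ, a m * mFourier m (pr x) := by
      simpa using h3
    rw [h4, ContinuousMap.zero_apply, ← h x]
    refine tsum_congr fun m => ?_
    rw [mFourier_pr]
  let Λ : C(UnitAddTorus ι, ℂ) →L[ℂ] ℂ :=
    (innerSL ℂ (mFourierLp (d := ι) 2 n)).comp (ContinuousMap.toLp 2 volume ℂ)
  have hΛ : ∀ m, Λ (mFourier m) = if n = m then 1 else 0 := fun m =>
    orthonormal_iff_ite.1 (orthonormal_mFourier (d := ι)) n m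
  have h5 := Λ.map_tsum h1
  rw [h2, map_zero, tsum_eq_single n] at h5
  · rw [map_smul, hΛ, if_pos rfl, smul_eq_mul, mul_one] at h5
    exact h5.symm
  · intro m hm
    rw [map_smul, hΛ, if_neg (Ne.symm hm), smul_zero]

/-- the unit box -/
def box (ι : Type) : Set (ι → ℝ) := {x : ι → ℝ | ∀ i, x i ∈ Set.Ioc (0 : ℝ) (0 + 1)}

/-- the average of a periodic function -/
def av (H : (ι → ℝ) → ℂ) : ℂ := ∫ x in box ι, H x

theorem av_eq (H : (ι → ℝ) → ℂ) (f : C(UnitAddTorus ι, ℂ)) (hf : ∀ x, f (pr x) = H x) :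
    av H = ∫ t, f t := by
  rw [integral_preimage (fun t => f t) 0]
  refine integral_congr_ae (Eventually.of_forall fun x => ?_)
  exact (hf x).symm

theorem av_translate (H : (ι → ℝ) → ℂ) (hc : Continuous H)
    (hp : ∀ (x : ι → ℝ) (n : ι → ℤ), H (fun i => x i + (n i : ℝ)) = H x) (r : ι → ℝ) :
    av (fun x => H (x + r)) = av H := by
  obtain ⟨f, hf⟩ := exists_lift H hc hp
  let g : C(UnitAddTorus ι, ℂ) := ⟨fun t => f (t + pr r), by fun_prop⟩
  rw [av_eq H f hf, av_eq (fun x => H (x + r)) g fun x => ?_]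
  · exact integral_add_right_eq_self (fun t => f t) (pr r)
  · show f (pr x + pr r) = H (x + r)
    rw [← hf]
    rfl

/-- the Fourier coefficients as averages -/
theorem zero_of_av (H : (ι → ℝ) → ℂ) (hc : Continuous H)
    (hp : ∀ (x : ι → ℝ) (n : ι → ℤ), H (fun i => x i + (n i : ℝ)) = H x)
    (h : ∀ n : ι → ℤ, av (fun x => cexp (2 * π * I * ∑ i, (n i : ℂ) * (x i : ℂ)) * H x) = 0)
    (x : ι → ℝ) : H x = 0 := by
  obtain ⟨f, hf⟩ := exists_lift H hc hp
  have h1 : f = 0 := by
    refine zero_of_coeff f fun n => ?_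
    have h2 := av_eq (fun x => cexp (2 * π * I * ∑ i, ((-n) i : ℂ) * (x i : ℂ)) * H x)
      (mFourier (-n) * f) (fun x => by
        rw [ContinuousMap.mul_apply, mFourier_pr, hf])
    have h3 := h (-n)
    rw [mFourierCoeff]
    have h4 : av (fun x => cexp (2 * π * I * ∑ i, ((-n) i : ℂ) * (x i : ℂ)) * H x) = 0 := by
      exact h3
    rw [h4] at h2
    exact h2.symm
  rw [← hf, h1, ContinuousMap.zero_apply]

end Pool.Agent.Lib.MPf11a48.SH.TH
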