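import Pool.Agent.Lib.MP_f11a48_ag.SH.TH.Ser
import Pool.Agent.Lib.MP_f11a48_ag.SH.TH.Fou

/-!
# Module TH: the theta function is unique
-/

set_option autoImplicit false

open Filter Topology Metric Complex Finset MeasureTheory

open scoped Real

namespace Pool.Agent.Lib.MPf11a48.SH.TH

variable {ι : Type} [Fintype ι]

omit [Fintype ι] in
theorem rc_add (x y : ι → ℝ) : (rc (x + y) : ι → ℂ) = rc x + rc y := by
  funext i
  simp [rc]

omit [Fintype ι] in
theorem rc_cont : Continuous (rc : (ι → ℝ) → (ι → ℂ)) := by
  unfold rc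
  fun_prop

/-- the average over the real torus at the point `u` -/
noncomputable def A (G : (ι → ℂ) → ℂ) (u : ι → ℂ) : ℂ := av fun x => G (rc x + u)

omit [Fintype ι] in
theorem box_subset : box ι ⊆ Set.Icc (0 : ι → ℝ) 1 := by
  intro x hx
  refine ⟨fun i => (hx i).1.le, fun i => ?_⟩
  have := (hx i).2
  simpa using this

theorem box_finite : volume (box ι) < ⊤ :=
  lt_of_le_of_lt (measure_mono box_subset) (isCompact_Icc (a := (0 : ι → ℝ)) (b := 1)).measure_lt_top

theorem box_meas : MeasurableSet (box ι) :=
  MeasurableSet.univ_pi' fun _ => measurableSet_Ioc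

theorem integrable_box {H : (ι → ℝ) → ℂ} (hc : Continuous H) : IntegrableOn H (box ι) volume :=
  (hc.continuousOn.integrableOn_compact isCompact_Icc).mono_set box_subset

theorem contDiff_of_diff {G : (ι → ℂ) → ℂ} (hG : Differentiable ℂ G) :
    Continuous (fderiv ℂ G) := by
  rw [continuous_iff_continuousAt]
  intro z
  exact (U.Osgood.analyticAt_of_differentiable hG z).fderiv.continuousAt

/-- the average depends holomorphically on the complex translation -/
theorem A_line {G : (ι → ℂ) → ℂ} (hG : Differentiable ℂ G) (u v : ι → ℂ) :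
    Differentiable ℂ fun s : ℂ => A G (u + s • v) := by
  intro s₀
  have hc' := contDiff_of_diff hG
  -- a bound on a compact set
  let Kc : Set (ℂ × (ι → ℝ)) := closedBall s₀ 1 ×ˢ Set.Icc (0 : ι → ℝ) 1
  have hK : IsCompact Kc := (isCompact_closedBall s₀ 1).prod isCompact_Icc
  have hcont : Continuous fun y : ℂ × (ι → ℝ) =>
      fderiv ℂ G (rc y.2 + (u + y.1 • v)) v := by
    refine (hc'.comp ?_).clm_apply continuous_const
    exact (rc_cont.comp continuous_snd).add
      (continuous_const.add (continuous_fst.smul continuous_const))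
  obtain ⟨M, hM⟩ := hK.exists_bound_of_continuousOn hcont.continuousOn
  have hdiff : ∀ (x : ι → ℝ) (s : ℂ), HasDerivAt (fun s : ℂ => G (rc x + (u + s • v)))
      (fderiv ℂ G (rc x + (u + s • v)) v) s := by
    intro x s
    have h1 : HasDerivAt (fun s : ℂ => rc x + (u + s • v)) v s := by
      have h2 : HasDerivAt (fun s : ℂ => s • v) ((1 : ℂ) • v) s := (hasDerivAt_id s).smul_const v
      rw [one_smul] at h2
      exact (h2.const_add u).const_add (rc x)
    exact (hG (rc x + (u + s • v))).hasFDerivAt.comp_hasDerivAt s h1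
  have hcs : ∀ s : ℂ, Continuous fun x : ι → ℝ => G (rc x + (u + s • v)) := fun s =>
    hG.continuous.comp (rc_cont.add continuous_const)
  have h := hasDerivAt_integral_of_dominated_loc_of_deriv_le (𝕜 := ℂ)
    (μ := volume.restrict (box ι)) (s := ball s₀ 1)
    (F := fun (s : ℂ) (x : ι → ℝ) => G (rc x + (u + s • v)))
    (F' := fun (s : ℂ) (x : ι → ℝ) => fderiv ℂ G (rc x + (u + s • v)) v) (x₀ := s₀)
    (bound := fun _ => M) (ball_mem_nhds s₀ one_pos)
    (Eventually.of_forall fun s => (hcs s).aestronglyMeasurable)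
    (integrable_box (hcs s₀)) ?_ ?_ ?_ ?_
  · exact h.2.differentiableAt
  · refine Continuous.aestronglyMeasurable ?_
    exact (hc'.comp (rc_cont.add continuous_const)).clm_apply continuous_const
  · refine (ae_restrict_iff' box_meas).2 (Eventually.of_forall fun x hx s hs => ?_)
    exact hM (s, x) ⟨ball_subset_closedBall hs, box_subset hx⟩
  · have : Fact (volume (box ι) < ⊤) := ⟨box_finite⟩
    exact integrable_const M
  · exact Eventually.of_forall fun x s _ => hdiff x s

/-- the average of a periodic entire function does not depend on the translation -/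
theorem A_const {G : (ι → ℂ) → ℂ} (hG : Differentiable ℂ G)
    (hp : ∀ (w : ι → ℂ) (b : ι → ℤ), G (w + ic b) = G w) (u : ι → ℂ) : A G u = A G 0 := by
  have hreal : ∀ (u : ι → ℂ) (r : ι → ℝ), A G (u + rc r) = A G u := by
    intro u r
    have h1 := av_translate (fun x => G (rc x + u)) (hG.continuous.comp (rc_cont.add
      continuous_const)) (fun x n => by
        rw [rc_add_int, add_right_comm, hp]) r
    rw [A, A, ← h1]
    congr 1
    funext x
    rw [rc_add]
    congr 1
    abel
  have hcomp : ∀ (u : ι → ℂ) (r : ι → ℝ) (s : ℂ), A G (u + s • rc r) = A G u := by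
    intro u r
    have hd := A_line hG u (rc r)
    have h2 : AnalyticOnNhd ℂ (fun s : ℂ => A G (u + s • rc r)) Set.univ :=
      fun s _ => (analyticOnNhd_univ_iff_differentiable.2 hd) s trivial
    have h3 : AnalyticOnNhd ℂ (fun _ : ℂ => A G u) Set.univ := fun s _ => analyticAt_const
    have h4 : ∀ t : ℝ, A G (u + (t : ℂ) • rc r) = A G u := by
      intro t
      rw [← hreal u (t • r)]
      congr 2
      funext i
      simp [rc]
    have h5 : ∃ᶠ s in 𝓝[≠] (0 : ℂ), A G (u + s • rc r) = A G u := by
      have h6 : Tendsto (fun t : ℝ => (t : ℂ)) (𝓝[≠] 0) (𝓝[≠] 0) := by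
        refine tendsto_nhdsWithin_iff.2 ⟨?_, ?_⟩
        · have h7 : Tendsto (fun t : ℝ => (t : ℂ)) (𝓝 0) (𝓝 0) := by
            have := Complex.continuous_ofReal.tendsto 0
            simpa using this
          exact h7.mono_left nhdsWithin_le_nhds
        · filter_upwards [self_mem_nhdsWithin] with t ht
          simpa using ht
      have h8 : ∃ᶠ t : ℝ in 𝓝[≠] 0, A G (u + (t : ℂ) • rc r) = A G u :=
        (Eventually.of_forall h4).frequently
      exact h6.frequently h8
    have h9 := h2.eq_of_frequently_eq h3 h5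
    intro s
    exact congrFun h9 s
  have h1 : u = (0 + I • rc fun i => (u i).im) + rc fun i => (u i).re := by
    funext i
    simp only [Pi.add_apply, Pi.zero_apply, Pi.smul_apply, rc, smul_eq_mul, zero_add]
    rw [add_comm, mul_comm, Complex.re_add_im]
  rw [h1, hreal, hcomp]

/-- the theta function is differentiable in `w` -/
theorem th_diff {τ : ι → ι → ℂ} (hτ : τ ∈ HH ι) : Differentiable ℂ (th τ) := by
  intro w
  have h1 := (hasFDerivAt_th (τ, w) hτ).differentiableAt
  have h2 : DifferentiableAt ℂ (fun w : ι → ℂ => ((τ, w) : PP ι)) w :=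
    (differentiableAt_const τ).prodMk differentiableAt_id
  exact DifferentiableAt.comp (g := fun P : PP ι => th P.1 P.2) w h1 h2

theorem L_real (m : ι → ℤ) (τ : ι → ι → ℂ) (x : ι → ℝ) :
    L (ic m) (τ, rc x) = L (ic m) (τ, 0) + 2 * π * I * ∑ i, (m i : ℂ) * (x i : ℂ) := by
  rw [L_apply, L_apply]
  simp [ic, rc]

/-- the theta function is not zero on the reals -/
theorem th_ne_real {τ : ι → ι → ℂ} (hτ : τ ∈ HH ι) : ∃ x : ι → ℝ, th τ (rc x) ≠ 0 := by
  by_contra hcon
  push Not at hcon
  have h1 := fourier_unique (fun m : ι → ℤ => cexp (L (ic m) (τ, 0))) (by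
    have := summable_norm_th 0 hτ 0
    simpa using this) (fun x => by
      rw [← hcon x, th]
      refine tsum_congr fun m => ?_
      rw [L_real, Complex.exp_add]) 0
  exact Complex.exp_ne_zero _ h1

/-- **Uniqueness of the theta function.** -/
theorem th_unique {τ : ι → ι → ℂ} (hτ : τ ∈ HH ι) (G : (ι → ℂ) → ℂ) (hG : Differentiable ℂ G)
    (hp : ∀ (w : ι → ℂ) (b : ι → ℤ), G (w + ic b) = G w)
    (hq : ∀ (w : ι → ℂ) (a : ι → ℤ), G (w + mv τ (ic a)) = cexp (-L (ic a) (τ, w)) * G w) :
    ∃ c : ℂ, ∀ w, G w = c * th τ w := by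
  -- a function with average zero vanishes
  have key : ∀ F : (ι → ℂ) → ℂ, Differentiable ℂ F →
      (∀ (w : ι → ℂ) (b : ι → ℤ), F (w + ic b) = F w) →
      (∀ (w : ι → ℂ) (a : ι → ℤ), F (w + mv τ (ic a)) = cexp (-L (ic a) (τ, w)) * F w) →
      A F 0 = 0 → ∀ w, F w = 0 := by
    intro F hF hp hq h0 u
    let H : (ι → ℤ) → (ι → ℂ) → ℂ := fun n w => cexp (2 * π * I * ∑ i, (n i : ℂ) * w i) * F w
    have hHd : ∀ n, Differentiable ℂ (H n) := by
      intro n
      have : Differentiable ℂ fun w : ι → ℂ => 2 * π * I * ∑ i, (n i : ℂ) * w i := by fun_prop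
      exact this.cexp.mul hF
    have hHp : ∀ n (w : ι → ℂ) (b : ι → ℤ), H n (w + ic b) = H n w := by
      intro n w b
      show cexp _ * F (w + ic b) = cexp _ * F w
      rw [hp]
      congr 1
      have h1 : 2 * π * I * ∑ i, (n i : ℂ) * (w + ic b) i =
          2 * π * I * ∑ i, (n i : ℂ) * w i + ((∑ i, n i * b i : ℤ) : ℂ) * (2 * π * I) := by
        have h2 : ∑ i, (n i : ℂ) * (w + ic b) i =
            ∑ i, (n i : ℂ) * w i + ((∑ i, n i * b i : ℤ) : ℂ) := by
          push_cast
          rw [← Finset.sum_add_distrib]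
          refine Finset.sum_congr rfl fun i _ => ?_
          simp only [Pi.add_apply, ic]
          ring
        rw [h2]
        ring
      rw [h1, Complex.exp_add, Complex.exp_int_mul_two_pi_mul_I, mul_one]
    -- the coefficients at `0`
    have hcoef : ∀ n, A (H n) 0 = 0 := by
      intro n
      have h1 : A F (mv τ (ic (-n))) = 0 := by rw [A_const hF hp, h0]
      have h2 : A F (mv τ (ic (-n))) = cexp (-L (ic (-n)) (τ, 0)) * A (H n) 0 := by
        rw [A, A, av, av, ← integral_const_mul]
        refine integral_congr_ae (Eventually.of_forall fun x => ?_)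
        show F (rc x + mv τ (ic (-n))) = cexp (-L (ic (-n)) (τ, 0)) *
          (cexp (2 * π * I * ∑ i, (n i : ℂ) * (rc x + 0 : ι → ℂ) i) * F (rc x + 0))
        rw [hq, add_zero, ← mul_assoc, ← Complex.exp_add, L_real]
        congr 2
        have h3 : ∑ i, ((-n) i : ℂ) * (x i : ℂ) = -∑ i, (n i : ℂ) * (x i : ℂ) := by
          rw [← Finset.sum_neg_distrib]
          refine Finset.sum_congr rfl fun i _ => ?_
          rw [Pi.neg_apply]
          push_cast
          ring
        unfold rc
        push_cast
        push_cast at h3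
        rw [h3]
        ring
      rw [h1] at h2
      exact (mul_eq_zero.1 h2.symm).resolve_left (Complex.exp_ne_zero _)
    have h3 := zero_of_av (fun x => F (rc x + u)) (hF.continuous.comp (rc_cont.add
      continuous_const)) (fun x n => by rw [rc_add_int, add_right_comm, hp]) (fun n => by
        have h4 : A (H n) u = 0 := by rw [A_const (hHd n) (hHp n), hcoef]
        have h5 : A (H n) u = cexp (2 * π * I * ∑ i, (n i : ℂ) * u i) *
            av fun x => cexp (2 * π * I * ∑ i, (n i : ℂ) * (x i : ℂ)) * F (rc x + u) := by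
          rw [A, av, av, ← integral_const_mul]
          refine integral_congr_ae (Eventually.of_forall fun x => ?_)
          show cexp (2 * π * I * ∑ i, (n i : ℂ) * (rc x + u) i) * F (rc x + u) = _
          beta_reduce
          rw [← mul_assoc, ← Complex.exp_add]
          congr 2
          rw [← mul_add, ← Finset.sum_add_distrib]
          congr 1
          refine Finset.sum_congr rfl fun i _ => ?_
          simp only [Pi.add_apply, rc]
          ring
        rw [h4] at h5
        exact (mul_eq_zero.1 h5.symm).resolve_left (Complex.exp_ne_zero _)) 0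
    have h6 : (rc 0 : ι → ℂ) + u = u := by
      funext i
      simp [rc]
    rw [h6] at h3
    exact h3
  have hth : A (th τ) 0 ≠ 0 := by
    intro h0
    obtain ⟨x, hx⟩ := th_ne_real hτ
    exact hx (key (th τ) (th_diff hτ) (th_add_int τ) (th_add_tau τ) h0 _)
  refine ⟨A G 0 / A (th τ) 0, fun w => ?_⟩
  have h1 := key (fun w => G w - A G 0 / A (th τ) 0 * th τ w)
    (hG.sub ((th_diff hτ).const_mul _)) (fun w b => by rw [hp, th_add_int])
    (fun w a => by rw [hq, th_add_tau]; ring) (by
      have h2 : A (fun w => G w - A G 0 / A (th τ) 0 * th τ w) 0 =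
          A G 0 - A G 0 / A (th τ) 0 * A (th τ) 0 := by
        rw [A, A, A, av, av, av, ← integral_const_mul, ← integral_sub]
        · exact integrable_box (hG.continuous.comp (rc_cont.add continuous_const))
        · exact (integrable_box ((th_diff hτ).continuous.comp
            (rc_cont.add continuous_const))).const_mul _
      rw [h2, div_mul_cancel₀ _ hth, sub_self]) w
  exact sub_eq_zero.1 h1

end Pool.Agent.Lib.MPf11a48.SH.TH
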