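import Pool.Agent.Lib.MP_f11a48_ag.SH.TH.Uni

/-!
# Module TH: non-degeneracy by Fourier series
-/

set_option autoImplicit false

open Filter Topology Metric Complex Finset MeasureTheory

open scoped Real

namespace Pool.Agent.Lib.MPf11a48.SH.TH

variable {ι : Type} [Fintype ι]

/-- the real vector of a rational vector -/
def qr (q : ι → ℚ) : ι → ℝ := fun i => (q i : ℝ)

omit [Fintype ι] in
theorem qr_dense : DenseRange (qr : (ι → ℚ) → (ι → ℝ)) :=
  DenseRange.piMap fun _ => Rat.denseRange_cast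

omit [Fintype ι] in
theorem eq_of_rat {X : Type*} [TopologicalSpace X] [T2Space X] {F G : (ι → ℝ) → X}
    (hF : Continuous F) (hG : Continuous G) (h : ∀ q : ι → ℚ, F (qr q) = G (qr q)) : F = G :=
  qr_dense.equalizer hF hG (funext h)

omit [Fintype ι] in
theorem rc_zero : (rc 0 : ι → ℂ) = 0 := by
  funext i
  simp [rc]

theorem summable_KG_coef {τ : ι → ι → ℂ} (hτ : τ ∈ HH ι) (Y : PP ι) (α : ℂ) :
    Summable fun m : ι → ℤ => ‖(L (ic m) Y - α) * cexp (L (ic m) (τ, 0))‖ := by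
  refine Summable.of_nonneg_of_le (fun m => norm_nonneg _) (fun m => ?_)
    ((summable_norm_th 2 hτ 0).mul_left (2 * π * ‖Y‖ + ‖α‖))
  rw [norm_mul, ← mul_assoc]
  refine mul_le_mul_of_nonneg_right ?_ (norm_nonneg _)
  have h2 : ‖L (ic m)‖ ≤ 2 * π * (1 + ∑ i, |(m i : ℝ)|) ^ 2 := by
    have := norm_L_le (ic m)
    simpa [ic] using this
  have h3 : 1 ≤ (1 + ∑ i, |(m i : ℝ)|) ^ 2 := by
    have h4 : 0 ≤ ∑ i, |(m i : ℝ)| := Finset.sum_nonneg fun i _ => abs_nonneg _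
    nlinarith
  calc ‖L (ic m) Y - α‖ ≤ ‖L (ic m)‖ * ‖Y‖ + ‖α‖ :=
        (norm_sub_le _ _).trans (by gcongr; exact (L (ic m)).le_opNorm Y)
    _ ≤ 2 * π * (1 + ∑ i, |(m i : ℝ)|) ^ 2 * ‖Y‖ + ‖α‖ * (1 + ∑ i, |(m i : ℝ)|) ^ 2 := by
        refine add_le_add (mul_le_mul_of_nonneg_right h2 (norm_nonneg _)) ?_
        exact le_mul_of_one_le_right (norm_nonneg _) h3
    _ = _ := by ring

theorem summable_L_mul {τ : ι → ι → ℂ} (hτ : τ ∈ HH ι) (Y : PP ι) (w : ι → ℂ) :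
    Summable fun m : ι → ℤ => L (ic m) Y * cexp (L (ic m) (τ, w)) := by
  have h4 := (ContinuousLinearMap.apply ℂ ℂ Y).summable (summable_L_exp hτ w)
  refine h4.congr fun m => ?_
  simp [mul_comm]

theorem continuous_KG {τ : ι → ι → ℂ} (hτ : τ ∈ HH ι) (Y : PP ι) :
    Continuous fun q : ι → ℝ => KG τ 0 (rc q) Y := by
  rw [continuous_iff_continuousAt]
  intro q
  have h1 := (analyticAt_KG (((τ, 0, rc q), Y) :
    ((ι → ι → ℂ) × (ι → ℂ) × (ι → ℂ)) × PP ι) hτ).continuousAt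
  exact ContinuousAt.comp (g := fun R : ((ι → ι → ℂ) × (ι → ℂ) × (ι → ℂ)) × PP ι =>
    KG R.1.1 R.1.2.1 R.1.2.2 R.2) (f := fun q : ι → ℝ => (((τ, 0, rc q), Y) :
    ((ι → ι → ℂ) × (ι → ℂ) × (ι → ℂ)) × PP ι)) h1 (by
      have := rc_cont (ι := ι)
      fun_prop)

/-- if a derivative is proportional to the function, the coefficients are constant -/
theorem coef_const {τ : ι → ι → ℂ} (hτ : τ ∈ HH ι) (Y : PP ι) (α : ℂ)
    (h : ∀ q : ι → ℚ, KG τ 0 (rc (qr q)) Y = α * th τ (rc (qr q))) (m : ι → ℤ) :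
    L (ic m) Y = α := by
  have h1 := eq_of_rat (continuous_KG hτ Y)
    (continuous_const.mul ((th_diff hτ).continuous.comp rc_cont)) (X := ℂ) h
  have h2 := fourier_unique (fun m : ι → ℤ => (L (ic m) Y - α) * cexp (L (ic m) (τ, 0)))
    (summable_KG_coef hτ Y α) (fun x => by
      have h3 := congrFun h1 x
      beta_reduce at h3
      have h4 : KG τ 0 (rc x) Y - α * th τ (rc x) = 0 := sub_eq_zero.2 h3
      rw [← h4, KG, th, ← tsum_mul_left, ← Summable.tsum_sub]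
      · refine tsum_congr fun m => ?_
        rw [add_zero, L_real, Complex.exp_add]
        ring
      · simp only [add_zero]
        exact summable_L_mul hτ Y _
      · exact (summable_th hτ _).mul_left _) m
  exact sub_eq_zero.1 ((mul_eq_zero.1 h2).resolve_right (Complex.exp_ne_zero _))

theorem Kl_zero (τ : ι → ι → ℂ) (q : ι → ℝ) : Kl τ 0 q = th τ (rc q) := by
  rw [Kl, rc_zero, Ks_zero]
  simp

theorem KD_zero (τ : ι → ι → ℂ) (q : ι → ℝ) (v : ι → ℂ) : KD τ 0 q v = KG τ 0 (rc q) (0, v) := by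
  rw [KD, rc_zero]
  simp

theorem KT_zero (τ : ι → ι → ℂ) (q : ι → ℝ) (σ : ι → ι → ℂ) :
    KT τ 0 q σ = KG τ 0 (rc q) (σ, 0) := by
  rw [KT, rc_zero]
  simp

/-- `Kl` does not vanish at all rational points -/
theorem exists_rat_ne {τ : ι → ι → ℂ} (hτ : τ ∈ HH ι) : ∃ q : ι → ℚ, Kl τ 0 (qr q) ≠ 0 := by
  by_contra hcon
  push Not at hcon
  obtain ⟨x, hx⟩ := th_ne_real hτ
  have h1 := eq_of_rat (F := fun x : ι → ℝ => th τ (rc x)) (G := fun _ => 0)
    ((th_diff hτ).continuous.comp rc_cont) continuous_const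
    (fun q => by rw [← Kl_zero, hcon q])
  exact hx (congrFun h1 x)

/-- **Non-degeneracy in `tau`.** If `d/dtau` in the direction `sigma` is proportional to `Kl` at the
rational points `(0, q)`, then `sigma` is antisymmetric. -/
theorem ndg_tau {τ : ι → ι → ℂ} (hτ : τ ∈ HH ι) (σ : ι → ι → ℂ) (c₀ c₁ : ℂ) (hc : c₀ ≠ 0)
    (h : ∀ q : ι → ℚ, KT τ 0 (qr q) σ * c₀ = Kl τ 0 (qr q) * c₁) (i j : ι) :
    σ i j + σ j i = 0 := by
  classical
  have h1 := coef_const hτ (σ, 0) (c₁ / c₀) (fun q => by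
    have h2 := h q
    rw [KT_zero, Kl_zero] at h2
    rw [div_mul_eq_mul_div, eq_div_iff hc, h2, mul_comm])
  have h2 : ∀ m : ι → ℤ, ∑ i, ∑ j, (m i : ℂ) * (m j : ℂ) * σ i j = 0 := by
    intro m
    have h3 := h1 0
    have h4 := h1 m
    have h5 : L (ic (0 : ι → ℤ)) ((σ, 0) : PP ι) = 0 := by
      rw [L_apply]
      simp [ic]
    rw [h5] at h3
    rw [← h3, L_apply] at h4
    have h6 : π * I * (∑ i, ∑ j, (ic m : ι → ℂ) i * (ic m : ι → ℂ) j * σ i j) = 0 := by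
      simpa using h4
    exact (mul_eq_zero.1 h6).resolve_left (mul_ne_zero (by exact_mod_cast Real.pi_ne_zero) I_ne_zero)
  have hs : ∀ k : ι, σ k k = 0 := by
    intro k
    have h3 := h2 (Pi.single k 1)
    rw [Finset.sum_eq_single k, Finset.sum_eq_single k] at h3
    · simpa using h3
    · intro l _ hl
      simp [Pi.single_eq_of_ne hl]
    · simp
    · intro l _ hl
      refine Finset.sum_eq_zero fun j _ => ?_
      simp [Pi.single_eq_of_ne hl]
    · simp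
  rcases eq_or_ne i j with rfl | hij
  · rw [hs i, add_zero]
  · have h3 := h2 (Pi.single i 1 + Pi.single j 1)
    have h4 : ∀ f : ι → ℂ, ∑ k, (((Pi.single i 1 + Pi.single j 1 : ι → ℤ) k : ℤ) : ℂ) * f k =
        f i + f j := by
      intro f
      have h5 : ∀ k, (((Pi.single i 1 + Pi.single j 1 : ι → ℤ) k : ℤ) : ℂ) * f k =
          (if k = i then f k else 0) + (if k = j then f k else 0) := by
        intro k
        rw [Pi.add_apply, Pi.single_apply, Pi.single_apply]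
        push_cast
        split_ifs <;> ring
      rw [Finset.sum_congr rfl fun k _ => h5 k, Finset.sum_add_distrib]
      simp
    have h6 : ∑ k, ∑ l, (((Pi.single i 1 + Pi.single j 1 : ι → ℤ) k : ℤ) : ℂ) *
        (((Pi.single i 1 + Pi.single j 1 : ι → ℤ) l : ℤ) : ℂ) * σ k l =
        ∑ k, (((Pi.single i 1 + Pi.single j 1 : ι → ℤ) k : ℤ) : ℂ) * (σ k i + σ k j) := by
      refine Finset.sum_congr rfl fun k _ => ?_
      rw [← h4, Finset.mul_sum]
      exact Finset.sum_congr rfl fun l _ => by ring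
    rw [h6, h4, hs i, hs j] at h3
    rw [← h3]
    ring

/-- **Non-degeneracy in `w`.** -/
theorem ndg_v {τ : ι → ι → ℂ} (hτ : τ ∈ HH ι) (v : ι → ℂ)
    (h : ∀ q : ι → ℚ, KD τ 0 (qr q) v = 0) : v = 0 := by
  classical
  have h1 := coef_const hτ (0, v) 0 (fun q => by rw [← KD_zero, h q, zero_mul])
  funext i
  have h2 := h1 (Pi.single i 1)
  rw [L_apply] at h2
  have h3 : ∑ k, (ic (Pi.single i 1) : ι → ℂ) k * v k = v i := by
    rw [Finset.sum_eq_single i]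
    · simp [ic]
    · intro l _ hl
      simp [ic, Pi.single_eq_of_ne hl]
    · simp
  rw [h3] at h2
  have h4 : 2 * (π : ℂ) * I * v i = 0 := by simpa using h2
  have h5 : 2 * (π : ℂ) * I ≠ 0 := by
    have : (π : ℂ) ≠ 0 := by exact_mod_cast Real.pi_ne_zero
    simp [this]
  exact (mul_eq_zero.1 h4).resolve_left h5

theorem KG_add_dir {τ : ι → ι → ℂ} (hτ : τ ∈ HH ι) (x w : ι → ℂ) (Y Z : PP ι) :
    KG τ x w (Y + Z) = KG τ x w Y + KG τ x w Z := by
  rw [← DK_apply x (τ, w) hτ, ← DK_apply x (τ, w) hτ, ← DK_apply x (τ, w) hτ, map_add]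

theorem KG_smul_dir {τ : ι → ι → ℂ} (hτ : τ ∈ HH ι) (x w : ι → ℂ) (c : ℂ) (Y : PP ι) :
    KG τ x w (c • Y) = c * KG τ x w Y := by
  rw [← DK_apply x (τ, w) hτ, ← DK_apply x (τ, w) hτ, map_smul, smul_eq_mul]

theorem KD_add_dir {τ : ι → ι → ℂ} (hτ : τ ∈ HH ι) (p q : ι → ℝ) (v w : ι → ℂ) :
    KD τ p q (v + w) = KD τ p q v + KD τ p q w := by
  rw [KD, KD, KD, ← mul_add, ← KG_add_dir hτ]
  simp

theorem KD_smul_dir {τ : ι → ι → ℂ} (hτ : τ ∈ HH ι) (p q : ι → ℝ) (c : ℂ) (v : ι → ℂ) :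
    KD τ p q (c • v) = c * KD τ p q v := by
  have h : ((0, c • v) : PP ι) = c • (0, v) := by simp
  rw [KD, KD, h, KG_smul_dir hτ]
  ring

/-- **The determinants.** If all `2 x 2` determinants of the derivatives in the directions
`v₁`, `v₂` vanish, then `v₁`, `v₂` are dependent. -/
theorem ndg_det {τ : ι → ι → ℂ} (hτ : τ ∈ HH ι) (v₁ v₂ : ι → ℂ)
    (h : ∀ q r : ι → ℚ, KD τ 0 (qr q) v₁ * KD τ 0 (qr r) v₂ =
      KD τ 0 (qr q) v₂ * KD τ 0 (qr r) v₁) :
    ∃ a b : ℂ, (a ≠ 0 ∨ b ≠ 0) ∧ a • v₁ + b • v₂ = 0 := by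
  by_cases h0 : ∃ r : ι → ℚ, KD τ 0 (qr r) v₁ ≠ 0 ∨ KD τ 0 (qr r) v₂ ≠ 0
  · obtain ⟨r, hr⟩ := h0
    refine ⟨KD τ 0 (qr r) v₂, -KD τ 0 (qr r) v₁, ?_, ?_⟩
    · rcases hr with hr | hr
      · exact Or.inr (neg_ne_zero.2 hr)
      · exact Or.inl hr
    · refine ndg_v hτ _ fun q => ?_
      rw [KD_add_dir hτ, KD_smul_dir hτ, KD_smul_dir hτ]
      have := h q r
      linear_combination this
  · push Not at h0
    refine ⟨1, 0, Or.inl one_ne_zero, ?_⟩
    rw [one_smul, zero_smul, add_zero]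
    exact ndg_v hτ v₁ fun q => (h0 q).1

end Pool.Agent.Lib.MPf11a48.SH.TH
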