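import Pool.Agent.Lib.MP_f11a48_ag.SH.TH.Sum

/-!
# Module TH: shifts, derivatives, quasi-periods
-/

set_option autoImplicit false

open Filter Topology Metric Complex Finset

open scoped Real

namespace Pool.Agent.Lib.MPf11a48.SH.TH

variable {ι : Type} [Fintype ι]

/-- the series of the derivatives, in the direction `Y = (sigma, v)` -/
noncomputable def KG (τ : ι → ι → ℂ) (x w : ι → ℂ) (Y : PP ι) : ℂ :=
  ∑' m : ι → ℤ, L (ic m + x) Y * cexp (L (ic m + x) (τ, w))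

/-- the first derivative in the direction `v`:
`exp (- pi i p.q) sum_m 2 pi i (m+p).v exp (pi i (m+p).tau (m+p) + 2 pi i (m+p).q)` -/
noncomputable def KD (τ : ι → ι → ℂ) (p q : ι → ℝ) (v : ι → ℂ) : ℂ :=
  cexp (-(π * I * ∑ i, (p i : ℂ) * (q i : ℂ))) * KG τ (rc p) (rc q) (0, v)

/-- the derivative with respect to `tau` in the direction `sigma` -/
noncomputable def KT (τ : ι → ι → ℂ) (p q : ι → ℝ) (σ : ι → ι → ℂ) : ℂ :=
  cexp (-(π * I * ∑ i, (p i : ℂ) * (q i : ℂ))) * KG τ (rc p) (rc q) (σ, 0)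

/-- the shear `(tau, w) -> (tau, w + mv tau x)`, as a linear map -/
noncomputable def Sh (x : ι → ℂ) : PP ι →L[ℂ] PP ι :=
  (ContinuousLinearMap.fst ℂ (ι → ι → ℂ) (ι → ℂ)).prod
    (ContinuousLinearMap.snd ℂ (ι → ι → ℂ) (ι → ℂ) +
      (ContinuousLinearMap.pi fun i => ∑ j, (x j / 2) •
        ((ContinuousLinearMap.proj j : (ι → ℂ) →L[ℂ] ℂ).comp
          (ContinuousLinearMap.proj i : (ι → ι → ℂ) →L[ℂ] (ι → ℂ)) +
        (ContinuousLinearMap.proj i : (ι → ℂ) →L[ℂ] ℂ).comp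
          (ContinuousLinearMap.proj j : (ι → ι → ℂ) →L[ℂ] (ι → ℂ)))).comp
        (ContinuousLinearMap.fst ℂ (ι → ι → ℂ) (ι → ℂ)))

theorem Sh_apply (x : ι → ℂ) (τ : ι → ι → ℂ) (w : ι → ℂ) :
    Sh x (τ, w) = (τ, w + mv τ x) := by
  simp only [Sh, ContinuousLinearMap.prod_apply, ContinuousLinearMap.coe_fst', add_apply,
    ContinuousLinearMap.coe_snd', ContinuousLinearMap.comp_apply]
  congr 2
  funext i
  rw [ContinuousLinearMap.pi_apply, _root_.sum_apply, mv]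
  refine Finset.sum_congr rfl fun j _ => ?_
  simp only [smul_apply, add_apply, ContinuousLinearMap.comp_apply,
    ContinuousLinearMap.proj_apply, smul_eq_mul]
  ring

theorem L_shift (m x : ι → ℂ) (P : PP ι) : L (m + x) P = L m (Sh x P) + L x P := by
  rw [show P = (P.1, P.2) from rfl, Sh_apply, L_apply, L_apply, L_apply]
  have h1 : ∑ i, ∑ j, (m + x) i * (m + x) j * P.1 i j =
      ∑ i, ∑ j, m i * m j * P.1 i j + ∑ i, ∑ j, x i * x j * P.1 i j +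
        2 * ∑ i, m i * mv P.1 x i := by
    have h2 : 2 * ∑ i, m i * mv P.1 x i =
        ∑ i, ∑ j, m i * x j * P.1 i j + ∑ i, ∑ j, x i * m j * P.1 i j := by
      rw [Finset.sum_comm (f := fun i j => x i * m j * P.1 i j), ← Finset.sum_add_distrib,
        Finset.mul_sum]
      refine Finset.sum_congr rfl fun i _ => ?_
      rw [mv, Finset.mul_sum, Finset.mul_sum, ← Finset.sum_add_distrib]
      exact Finset.sum_congr rfl fun j _ => by ring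
    rw [h2, ← Finset.sum_add_distrib, ← Finset.sum_add_distrib, ← Finset.sum_add_distrib]
    refine Finset.sum_congr rfl fun i _ => ?_
    rw [← Finset.sum_add_distrib, ← Finset.sum_add_distrib, ← Finset.sum_add_distrib]
    refine Finset.sum_congr rfl fun j _ => ?_
    simp only [Pi.add_apply]
    ring
  have h3 : ∑ i, (m + x) i * P.2 i = ∑ i, m i * P.2 i + ∑ i, x i * P.2 i := by
    rw [← Finset.sum_add_distrib]
    refine Finset.sum_congr rfl fun i _ => ?_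
    rw [Pi.add_apply]
    ring
  have h4 : ∑ i, m i * (P.2 + mv P.1 x) i = ∑ i, m i * P.2 i + ∑ i, m i * mv P.1 x i := by
    rw [← Finset.sum_add_distrib]
    refine Finset.sum_congr rfl fun i _ => ?_
    rw [Pi.add_apply]
    ring
  rw [h1, h3, h4]
  ring

theorem Ks_eq (τ : ι → ι → ℂ) (x w : ι → ℂ) :
    Ks τ x w = cexp (L x (τ, w)) * th τ (w + mv τ x) := by
  rw [Ks, th, ← tsum_mul_left]
  refine tsum_congr fun m => ?_
  rw [L_shift, Sh_apply, Complex.exp_add]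
  ring

theorem summable_Ks {τ : ι → ι → ℂ} (hτ : τ ∈ HH ι) (x w : ι → ℂ) :
    Summable fun m : ι → ℤ => cexp (L (ic m + x) (τ, w)) := by
  refine ((summable_th hτ (w + mv τ x)).mul_left (cexp (L x (τ, w)))).congr fun m => ?_
  rw [L_shift, Sh_apply, Complex.exp_add]
  ring

theorem summable_L_exp {τ : ι → ι → ℂ} (hτ : τ ∈ HH ι) (w : ι → ℂ) :
    Summable fun m : ι → ℤ => cexp (L (ic m) (τ, w)) • L (ic m) := by
  refine Summable.of_norm_bounded (g := fun m : ι → ℤ => 2 * π * ((1 + ∑ i, |(m i : ℝ)|) ^ 2 *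
    ‖cexp (L (ic m) (τ, w))‖)) ((summable_norm_th 2 hτ w).mul_left _) fun m => ?_
  rw [norm_smul]
  have h2 : ‖L (ic m)‖ ≤ 2 * π * (1 + ∑ i, |(m i : ℝ)|) ^ 2 := by
    have := norm_L_le (ic m)
    simpa [ic] using this
  calc ‖cexp (L (ic m) (τ, w))‖ * ‖L (ic m)‖
      ≤ ‖cexp (L (ic m) (τ, w))‖ * (2 * π * (1 + ∑ i, |(m i : ℝ)|) ^ 2) :=
        mul_le_mul_of_nonneg_left h2 (norm_nonneg _)
    _ = _ := by ring

/-- the derivative of `Ks` -/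
noncomputable def DK (x : ι → ℂ) (P : PP ι) : PP ι →L[ℂ] ℂ :=
  cexp (L x P) • ((∑' m : ι → ℤ, cexp (L (ic m) (Sh x P)) • L (ic m)).comp (Sh x)) +
    (th P.1 (P.2 + mv P.1 x)) • (cexp (L x P) • L x)

theorem DK_apply (x : ι → ℂ) (P : PP ι) (hP : P.1 ∈ HH ι) (Y : PP ι) :
    DK x P Y = KG P.1 x P.2 Y := by
  have hsh : Sh x P = (P.1, P.2 + mv P.1 x) := Sh_apply x P.1 P.2
  have h1 : Summable fun m : ι → ℤ => cexp (L (ic m) (Sh x P)) • L (ic m) := by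
    rw [hsh]
    exact summable_L_exp hP _
  have h2 : (∑' m : ι → ℤ, cexp (L (ic m) (Sh x P)) • L (ic m)) (Sh x Y) =
      ∑' m : ι → ℤ, cexp (L (ic m) (Sh x P)) * L (ic m) (Sh x Y) := by
    have h3 := (ContinuousLinearMap.apply ℂ ℂ (Sh x Y)).map_tsum h1
    simpa using h3
  have h3 : Summable fun m : ι → ℤ => cexp (L (ic m) (Sh x P)) * L (ic m) (Sh x Y) := by
    have h4 := (ContinuousLinearMap.apply ℂ ℂ (Sh x Y)).summable h1
    simpa using h4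
  have h5 : Summable fun m : ι → ℤ => cexp (L (ic m) (Sh x P)) := by
    rw [hsh]
    exact summable_th hP _
  rw [DK, add_apply, smul_apply, ContinuousLinearMap.comp_apply, smul_apply, smul_apply, h2, KG,
    th, ← hsh, smul_eq_mul, smul_eq_mul, smul_eq_mul, ← tsum_mul_left, ← tsum_mul_right,
    ← (h3.mul_left _).tsum_add (h5.mul_right _)]
  refine tsum_congr fun m => ?_
  rw [show ((P.1, P.2) : PP ι) = P from rfl, L_shift, L_shift, Complex.exp_add]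
  ring

theorem hasFDerivAt_Ks (x : ι → ℂ) (P : PP ι) (hP : P.1 ∈ HH ι) :
    HasFDerivAt (fun P : PP ι => Ks P.1 x P.2) (DK x P) P := by
  have hsh : Sh x P = (P.1, P.2 + mv P.1 x) := Sh_apply x P.1 P.2
  have h1 : (fun P : PP ι => Ks P.1 x P.2) =
      fun P => cexp (L x P) * (fun P' : PP ι => th P'.1 P'.2) (Sh x P) := by
    funext P
    rw [Ks_eq]
    show _ = cexp (L x P) * th (Sh x P).1 (Sh x P).2
    rw [show P = (P.1, P.2) from rfl, Sh_apply]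
  rw [h1]
  have h2 := (hasFDerivAt_th (Sh x P) (by rw [hsh]; exact hP)).comp P (Sh x).hasFDerivAt
  have h3 : HasFDerivAt (fun P => cexp (L x P)) (cexp (L x P) • L x) P :=
    (L x).hasFDerivAt.cexp
  have h4 := h3.mul h2
  have h5 : DK x P = cexp (L x P) • ((∑' m : ι → ℤ, cexp (L (ic m) (Sh x P)) • L (ic m)).comp
      (Sh x)) + (th (Sh x P).1 (Sh x P).2) • (cexp (L x P) • L x) := by
    rw [DK, hsh]
  rw [h5]
  exact h4

theorem fderiv_Ks (x : ι → ℂ) (P : PP ι) (hP : P.1 ∈ HH ι) (Y : PP ι) :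
    fderiv ℂ (fun P : PP ι => Ks P.1 x P.2) P Y = KG P.1 x P.2 Y := by
  rw [(hasFDerivAt_Ks x P hP).fderiv, DK_apply x P hP]

/-! ## Joint analyticity -/

/-- `Ks` is analytic in all variables -/
theorem analyticAt_Ks (R : (ι → ι → ℂ) × (ι → ℂ) × (ι → ℂ)) (hR : R.1 ∈ HH ι) :
    AnalyticAt ℂ (fun R : (ι → ι → ℂ) × (ι → ℂ) × (ι → ℂ) => Ks R.1 R.2.1 R.2.2) R := by
  have h1 : (fun R : (ι → ι → ℂ) × (ι → ℂ) × (ι → ℂ) => Ks R.1 R.2.1 R.2.2) =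
      fun R => cexp (π * I * (∑ i, ∑ j, R.2.1 i * R.2.1 j * R.1 i j) +
        2 * π * I * ∑ i, R.2.1 i * R.2.2 i) *
        (fun P' : PP ι => th P'.1 P'.2) (R.1, fun i => R.2.2 i +
          ∑ j, (R.1 i j + R.1 j i) / 2 * R.2.1 j) := by
    funext R
    rw [Ks_eq, L_apply]
    rfl
  have hp : ∀ i j : ι, AnalyticAt ℂ (fun R : (ι → ι → ℂ) × (ι → ℂ) × (ι → ℂ) => R.1 i j) R :=
    fun i j => ((ContinuousLinearMap.proj j : (ι → ℂ) →L[ℂ] ℂ).comp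
      ((ContinuousLinearMap.proj i : (ι → ι → ℂ) →L[ℂ] (ι → ℂ)).comp
        (ContinuousLinearMap.fst ℂ (ι → ι → ℂ) ((ι → ℂ) × (ι → ℂ))))).analyticAt R
  have hx : ∀ i : ι, AnalyticAt ℂ (fun R : (ι → ι → ℂ) × (ι → ℂ) × (ι → ℂ) => R.2.1 i) R :=
    fun i => ((ContinuousLinearMap.proj i : (ι → ℂ) →L[ℂ] ℂ).comp
      ((ContinuousLinearMap.fst ℂ (ι → ℂ) (ι → ℂ)).comp
        (ContinuousLinearMap.snd ℂ (ι → ι → ℂ) ((ι → ℂ) × (ι → ℂ))))).analyticAt R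
  have hw : ∀ i : ι, AnalyticAt ℂ (fun R : (ι → ι → ℂ) × (ι → ℂ) × (ι → ℂ) => R.2.2 i) R :=
    fun i => ((ContinuousLinearMap.proj i : (ι → ℂ) →L[ℂ] ℂ).comp
      ((ContinuousLinearMap.snd ℂ (ι → ℂ) (ι → ℂ)).comp
        (ContinuousLinearMap.snd ℂ (ι → ι → ℂ) ((ι → ℂ) × (ι → ℂ))))).analyticAt R
  have h2 : AnalyticAt ℂ (fun R : (ι → ι → ℂ) × (ι → ℂ) × (ι → ℂ) =>
      ((R.1, fun i => R.2.2 i + ∑ j, (R.1 i j + R.1 j i) / 2 * R.2.1 j) : PP ι)) R := by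
    refine AnalyticAt.prod ?_ ?_
    · exact (ContinuousLinearMap.fst ℂ (ι → ι → ℂ) ((ι → ℂ) × (ι → ℂ))).analyticAt R
    · refine AnalyticAt.pi fun i => ?_
      refine (hw i).add ?_
      refine Finset.analyticAt_fun_sum _ fun j _ => ?_
      exact (((hp i j).add (hp j i)).div_const).mul (hx j)
  rw [h1]
  refine AnalyticAt.mul ?_ ?_
  · refine AnalyticAt.cexp ?_
    refine AnalyticAt.add ?_ ?_
    · refine analyticAt_const.mul ?_
      refine Finset.analyticAt_fun_sum _ fun i _ => Finset.analyticAt_fun_sum _ fun j _ => ?_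
      exact ((hx i).mul (hx j)).mul (hp i j)
    · refine analyticAt_const.mul ?_
      exact Finset.analyticAt_fun_sum _ fun i _ => (hx i).mul (hw i)
  · exact AnalyticAt.comp (g := fun P' : PP ι => th P'.1 P'.2)
      (analyticAt_th (R.1, fun i => R.2.2 i + ∑ j, (R.1 i j + R.1 j i) / 2 * R.2.1 j) hR) h2

/-- the inclusion of the directions `(sigma, v)` into the directions `(sigma, 0, v)` -/
noncomputable def inc (ι : Type) [Fintype ι] :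
    PP ι →L[ℂ] (ι → ι → ℂ) × (ι → ℂ) × (ι → ℂ) :=
  (ContinuousLinearMap.fst ℂ (ι → ι → ℂ) (ι → ℂ)).prod
    ((0 : PP ι →L[ℂ] (ι → ℂ)).prod (ContinuousLinearMap.snd ℂ (ι → ι → ℂ) (ι → ℂ)))

theorem fderiv_Ks' (R : (ι → ι → ℂ) × (ι → ℂ) × (ι → ℂ)) (hR : R.1 ∈ HH ι) (Y : PP ι) :
    fderiv ℂ (fun R : (ι → ι → ℂ) × (ι → ℂ) × (ι → ℂ) => Ks R.1 R.2.1 R.2.2) R (inc ι Y) =
      KG R.1 R.2.1 R.2.2 Y := by
  have h1 : HasFDerivAt (fun R : (ι → ι → ℂ) × (ι → ℂ) × (ι → ℂ) => Ks R.1 R.2.1 R.2.2) _ R :=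
    (analyticAt_Ks R hR).differentiableAt.hasFDerivAt
  have h2 : HasFDerivAt (fun P : PP ι => ((P.1, R.2.1, P.2) : (ι → ι → ℂ) × (ι → ℂ) × (ι → ℂ)))
      (inc ι) (R.1, R.2.2) := by
    have h3 : HasFDerivAt (fun P : PP ι => inc ι P + ((0, R.2.1, 0) :
        (ι → ι → ℂ) × (ι → ℂ) × (ι → ℂ))) (inc ι) (R.1, R.2.2) :=
      (inc ι).hasFDerivAt.add_const _
    refine h3.congr_of_eventuallyEq (Eventually.of_forall fun P => ?_)
    simp [inc]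
  have h4 := h1.comp (R.1, R.2.2) (f := fun P : PP ι =>
    ((P.1, R.2.1, P.2) : (ι → ι → ℂ) × (ι → ℂ) × (ι → ℂ))) h2
  have h5 := h4.unique (hasFDerivAt_Ks R.2.1 (R.1, R.2.2) hR)
  rw [← DK_apply R.2.1 (R.1, R.2.2) hR, ← h5]
  rfl

/-- the series of the derivatives is analytic in all variables -/
theorem analyticAt_KG (R : ((ι → ι → ℂ) × (ι → ℂ) × (ι → ℂ)) × PP ι) (hR : R.1.1 ∈ HH ι) :
    AnalyticAt ℂ (fun R : ((ι → ι → ℂ) × (ι → ℂ) × (ι → ℂ)) × PP ι =>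
      KG R.1.1 R.1.2.1 R.1.2.2 R.2) R := by
  have h1 : AnalyticAt ℂ (fun R : ((ι → ι → ℂ) × (ι → ℂ) × (ι → ℂ)) × PP ι =>
      fderiv ℂ (fun R : (ι → ι → ℂ) × (ι → ℂ) × (ι → ℂ) => Ks R.1 R.2.1 R.2.2) R.1) R := by
    have h2 := (analyticAt_Ks R.1 hR).fderiv
    exact AnalyticAt.comp (g := fderiv ℂ (fun R : (ι → ι → ℂ) × (ι → ℂ) × (ι → ℂ) =>
      Ks R.1 R.2.1 R.2.2)) h2 analyticAt_fst
  have h3 : AnalyticAt ℂ (fun R : ((ι → ι → ℂ) × (ι → ℂ) × (ι → ℂ)) × PP ι => inc ι R.2) R :=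
    ((inc ι).comp (ContinuousLinearMap.snd ℂ ((ι → ι → ℂ) × (ι → ℂ) × (ι → ℂ)) (PP ι))).analyticAt R
  have h4 : AnalyticAt ℂ (fun R : ((ι → ι → ℂ) × (ι → ℂ) × (ι → ℂ)) × PP ι =>
      (fderiv ℂ (fun R : (ι → ι → ℂ) × (ι → ℂ) × (ι → ℂ) => Ks R.1 R.2.1 R.2.2) R.1)
        (inc ι R.2)) R :=
    AnalyticAt.comp (g := fun T : (((ι → ι → ℂ) × (ι → ℂ) × (ι → ℂ)) →L[ℂ] ℂ) ×
      ((ι → ι → ℂ) × (ι → ℂ) × (ι → ℂ)) => T.1 T.2)
      ((ContinuousLinearMap.id ℂ (((ι → ι → ℂ) × (ι → ℂ) × (ι → ℂ)) →L[ℂ] ℂ)).analyticAt_bilinear _)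
      (h1.prod h3)
  refine h4.congr ?_
  have h5 : ∀ᶠ R' : ((ι → ι → ℂ) × (ι → ℂ) × (ι → ℂ)) × PP ι in 𝓝 R, R'.1.1 ∈ HH ι :=
    (continuous_fst.comp continuous_fst).continuousAt.eventually (isOpen_HH.mem_nhds hR)
  filter_upwards [h5] with R' hR'
  exact fderiv_Ks' R'.1 hR' R'.2

/-! ## Quasi-periods -/

omit [Fintype ι] in
theorem ic_add (a b : ι → ℤ) : (ic (a + b) : ι → ℂ) = ic a + ic b := by
  funext i
  simp [ic]

theorem L_int (m b : ι → ℤ) (x w : ι → ℂ) (τ : ι → ι → ℂ) :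
    cexp (L (ic m + x) (τ, w + ic b)) =
      cexp (2 * π * I * ∑ i, x i * (b i : ℂ)) * cexp (L (ic m + x) (τ, w)) := by
  have h1 : L (ic m + x) (τ, w + ic b) = ((∑ i, m i * b i : ℤ) : ℂ) * (2 * π * I) +
      (2 * π * I * ∑ i, x i * (b i : ℂ) + L (ic m + x) (τ, w)) := by
    rw [L_apply, L_apply]
    have h2 : ∑ i, (ic m + x) i * (w + ic b) i = ∑ i, (ic m + x) i * w i +
        ((∑ i, m i * b i : ℤ) : ℂ) + ∑ i, x i * (b i : ℂ) := by
      push_cast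
      rw [← Finset.sum_add_distrib, ← Finset.sum_add_distrib]
      refine Finset.sum_congr rfl fun i _ => ?_
      simp only [Pi.add_apply, ic]
      ring
    rw [h2]
    ring
  rw [h1, Complex.exp_add, Complex.exp_int_mul_two_pi_mul_I, one_mul, Complex.exp_add]

theorem KG_add_left (τ : ι → ι → ℂ) (x w : ι → ℂ) (Y : PP ι) (a : ι → ℤ) :
    KG τ (x + ic a) w Y = KG τ x w Y := by
  rw [KG, KG, ← (Equiv.addRight a).tsum_eq fun m : ι → ℤ =>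
    L (ic m + x) Y * cexp (L (ic m + x) (τ, w))]
  refine tsum_congr fun m => ?_
  rw [Equiv.coe_addRight, ic_add, add_right_comm, ← add_assoc]

theorem Ks_add_left (τ : ι → ι → ℂ) (x w : ι → ℂ) (a : ι → ℤ) :
    Ks τ (x + ic a) w = Ks τ x w := by
  rw [Ks, Ks, ← (Equiv.addRight a).tsum_eq fun m : ι → ℤ => cexp (L (ic m + x) (τ, w))]
  refine tsum_congr fun m => ?_
  rw [Equiv.coe_addRight, ic_add, add_right_comm, ← add_assoc]

theorem KG_add_right (τ : ι → ι → ℂ) (x w : ι → ℂ) (Y : PP ι) (b : ι → ℤ) :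
    KG τ x (w + ic b) Y = cexp (2 * π * I * ∑ i, x i * (b i : ℂ)) * KG τ x w Y := by
  rw [KG, KG, ← tsum_mul_left]
  refine tsum_congr fun m => ?_
  rw [L_int]
  ring

theorem Ks_add_right (τ : ι → ι → ℂ) (x w : ι → ℂ) (b : ι → ℤ) :
    Ks τ x (w + ic b) = cexp (2 * π * I * ∑ i, x i * (b i : ℂ)) * Ks τ x w := by
  rw [Ks, Ks, ← tsum_mul_left]
  exact tsum_congr fun m => L_int m b x w τ

theorem Ks_zero (τ : ι → ι → ℂ) (w : ι → ℂ) : Ks τ 0 w = th τ w := by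
  rw [Ks, th]
  simp only [add_zero]

theorem th_add_int (τ : ι → ι → ℂ) (w : ι → ℂ) (b : ι → ℤ) : th τ (w + ic b) = th τ w := by
  rw [← Ks_zero, Ks_add_right, Ks_zero]
  simp

/-- the quasi-periods of the theta function -/
theorem th_add_tau (τ : ι → ι → ℂ) (w : ι → ℂ) (a : ι → ℤ) :
    th τ (w + mv τ (ic a)) = cexp (-L (ic a) (τ, w)) * th τ w := by
  have h1 := Ks_eq τ (ic a) w
  have h2 := Ks_add_left τ 0 w a
  rw [zero_add, Ks_zero] at h2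
  rw [h2] at h1
  rw [h1, ← mul_assoc, ← Complex.exp_add, neg_add_cancel, Complex.exp_zero, one_mul]

omit [Fintype ι] in
theorem rc_add_int (p : ι → ℝ) (a : ι → ℤ) :
    (rc (fun i => p i + (a i : ℝ)) : ι → ℂ) = rc p + ic a := by
  funext i
  simp [rc, ic]

/-- the factor of `(p, q) -> (p + a, q + b)` -/
noncomputable def qf (p q : ι → ℝ) (a b : ι → ℤ) : ℂ :=
  cexp (π * I * (∑ i, (p i : ℂ) * (b i : ℂ) - ∑ i, (a i : ℂ) * (q i : ℂ) -
    ∑ i, (a i : ℂ) * (b i : ℂ)))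

theorem qf_eq (p q : ι → ℝ) (a b : ι → ℤ) :
    cexp (-(π * I * ∑ i, ((p i + (a i : ℝ) : ℝ) : ℂ) * ((q i + (b i : ℝ) : ℝ) : ℂ))) *
      cexp (2 * π * I * ∑ i, (rc p : ι → ℂ) i * (b i : ℂ)) =
      qf p q a b * cexp (-(π * I * ∑ i, (p i : ℂ) * (q i : ℂ))) := by
  rw [qf, ← Complex.exp_add, ← Complex.exp_add]
  congr 1
  have h1 : ∑ i, ((p i + (a i : ℝ) : ℝ) : ℂ) * ((q i + (b i : ℝ) : ℝ) : ℂ) =
      ∑ i, (p i : ℂ) * (q i : ℂ) + ∑ i, (p i : ℂ) * (b i : ℂ) + ∑ i, (a i : ℂ) * (q i : ℂ) +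
        ∑ i, (a i : ℂ) * (b i : ℂ) := by
    rw [← Finset.sum_add_distrib, ← Finset.sum_add_distrib, ← Finset.sum_add_distrib]
    refine Finset.sum_congr rfl fun i _ => ?_
    push_cast
    ring
  rw [h1]
  unfold rc
  ring

theorem Kl_add (τ : ι → ι → ℂ) (p q : ι → ℝ) (a b : ι → ℤ) :
    Kl τ (fun i => p i + (a i : ℝ)) (fun i => q i + (b i : ℝ)) = qf p q a b * Kl τ p q := by
  rw [Kl, Kl, rc_add_int, rc_add_int, Ks_add_left, Ks_add_right, ← mul_assoc, ← mul_assoc]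
  congr 1
  exact qf_eq p q a b

theorem KD_add (τ : ι → ι → ℂ) (p q : ι → ℝ) (v : ι → ℂ) (a b : ι → ℤ) :
    KD τ (fun i => p i + (a i : ℝ)) (fun i => q i + (b i : ℝ)) v = qf p q a b * KD τ p q v := by
  rw [KD, KD, rc_add_int, rc_add_int, KG_add_left, KG_add_right, ← mul_assoc, ← mul_assoc]
  congr 1
  exact qf_eq p q a b

theorem KT_add (τ : ι → ι → ℂ) (p q : ι → ℝ) (σ : ι → ι → ℂ) (a b : ι → ℤ) :
    KT τ (fun i => p i + (a i : ℝ)) (fun i => q i + (b i : ℝ)) σ = qf p q a b * KT τ p q σ := by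
  rw [KT, KT, rc_add_int, rc_add_int, KG_add_left, KG_add_right, ← mul_assoc, ← mul_assoc]
  congr 1
  exact qf_eq p q a b

theorem norm_qf (p q : ι → ℝ) (a b : ι → ℤ) : ‖qf p q a b‖ = 1 := by
  rw [qf]
  have h1 : (π * I * (∑ i, (p i : ℂ) * (b i : ℂ) - ∑ i, (a i : ℂ) * (q i : ℂ) -
      ∑ i, (a i : ℂ) * (b i : ℂ))) =
      ((π * (∑ i, p i * (b i : ℝ) - ∑ i, (a i : ℝ) * q i - ∑ i, (a i : ℝ) * (b i : ℝ)) : ℝ) : ℂ)
        * I := by
    push_cast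
    ring
  rw [h1, Complex.norm_exp_ofReal_mul_I]

theorem norm_Kl_add (τ : ι → ι → ℂ) (p q : ι → ℝ) (a b : ι → ℤ) :
    ‖Kl τ (fun i => p i + (a i : ℝ)) (fun i => q i + (b i : ℝ))‖ = ‖Kl τ p q‖ := by
  rw [Kl_add, norm_mul, norm_qf, one_mul]

/-- `Kl` in terms of the theta function -/
theorem Kl_eq (τ : ι → ι → ℂ) (p q : ι → ℝ) :
    Kl τ p q = cexp (π * I * (∑ i, ∑ j, (p i : ℂ) * (p j : ℂ) * τ i j +
      ∑ i, (p i : ℂ) * (q i : ℂ))) * th τ (rc q + mv τ (rc p)) := by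
  rw [Kl, Ks_eq, ← mul_assoc, ← Complex.exp_add, L_apply]
  congr 2
  unfold rc
  ring

end Pool.Agent.Lib.MPf11a48.SH.TH
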