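import Pool.Agent.Lib.MP_f11a48_ag.SH.TH.Defs
import Pool.Agent.Lib.MP_f11a48_ag.U.Osgood

/-!
# Module TH: summability and analyticity
-/

set_option autoImplicit false

open Filter Topology Metric Complex Finset

open scoped Real

namespace Pool.Agent.Lib.MPf11a48.SH.TH

variable {ι : Type} [Fintype ι]

/-! ## Summability over the lattice -/

theorem summable_prod (f : ι → ℤ → ℝ) (hf : ∀ i k, 0 ≤ f i k) (hs : ∀ i, Summable (f i)) :
    Summable fun m : ι → ℤ => ∏ i, f i (m i) := by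
  classical
  refine summable_of_sum_le (c := ∏ i, ∑' k, f i k) (fun m => Finset.prod_nonneg fun i _ => hf i _)
    fun u => ?_
  calc ∑ m ∈ u, ∏ i, f i (m i)
      ≤ ∑ m ∈ Fintype.piFinset fun i => u.image fun m => m i, ∏ i, f i (m i) := by
        refine Finset.sum_le_sum_of_subset_of_nonneg ?_
          fun m _ _ => Finset.prod_nonneg fun i _ => hf i _
        intro m hm
        rw [Fintype.mem_piFinset]
        intro i
        exact Finset.mem_image_of_mem _ hm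
    _ = ∏ i, ∑ k ∈ u.image fun m => m i, f i k := by
        rw [Finset.prod_univ_sum]
    _ ≤ ∏ i, ∑' k, f i k := by
        refine Finset.prod_le_prod (fun i _ => Finset.sum_nonneg fun k _ => hf i k) fun i _ => ?_
        exact (hs i).sum_le_tsum _ fun k _ => hf i k

/-- the bound of the terms -/
noncomputable def bd (T S : ℝ) (x : ι → ℝ) : ℝ :=
  Real.exp (-π * (T * ∑ i, x i ^ 2 - 2 * S * ∑ i, |x i|))

theorem bd_pos (T S : ℝ) (x : ι → ℝ) : 0 < bd T S x := Real.exp_pos _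

theorem summable_bd {T : ℝ} (hT : 0 < T) (S : ℝ) :
    Summable fun m : ι → ℤ => bd T S fun i => (m i : ℝ) := by
  have h := summable_prod (ι := ι) (fun _ k => Real.exp (-π * (T * (k : ℝ) ^ 2 - 2 * S * |(k : ℝ)|)))
    (fun i k => (Real.exp_pos _).le) (fun i => by
      have h1 := summable_pow_mul_jacobiTheta₂_term_bound S hT 0
      simpa using h1)
  refine h.congr fun m => ?_
  rw [← Real.exp_sum, bd]
  congr 1
  rw [Finset.mul_sum, Finset.mul_sum, ← Finset.sum_sub_distrib, Finset.mul_sum]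

/-- polynomial factors -/
theorem pow_mul_bd_le {T : ℝ} (S : ℝ) (k : ℕ) (x : ι → ℝ) :
    (1 + ∑ i, |x i|) ^ k * bd T S x ≤ bd T (S + k) x := by
  have h0 : 0 ≤ ∑ i, |x i| := Finset.sum_nonneg fun i _ => abs_nonneg _
  have h1 : (1 + ∑ i, |x i|) ^ k ≤ Real.exp (k * ∑ i, |x i|) := by
    rw [Real.exp_nat_mul]
    refine pow_le_pow_left₀ (by linarith) ?_ k
    have := Real.add_one_le_exp (∑ i, |x i|)
    linarith
  calc (1 + ∑ i, |x i|) ^ k * bd T S x ≤ Real.exp (k * ∑ i, |x i|) * bd T S x :=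
        mul_le_mul_of_nonneg_right h1 (bd_pos _ _ _).le
    _ = Real.exp (k * ∑ i, |x i| + -π * (T * ∑ i, x i ^ 2 - 2 * S * ∑ i, |x i|)) := by
        rw [bd, Real.exp_add]
    _ ≤ bd T (S + k) x := by
        rw [bd]
        apply Real.exp_le_exp.2
        have h3 : (k : ℝ) * ∑ i, |x i| ≤ 2 * π * (k * ∑ i, |x i|) := by
          have h4 : 0 ≤ (k : ℝ) * ∑ i, |x i| := by positivity
          nlinarith [Real.pi_gt_three]
        nlinarith

theorem summable_pow_mul_bd {T : ℝ} (hT : 0 < T) (S : ℝ) (k : ℕ) :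
    Summable fun m : ι → ℤ => (1 + ∑ i, |(m i : ℝ)|) ^ k * bd T S fun i => (m i : ℝ) := by
  refine Summable.of_nonneg_of_le (fun m => ?_) (fun m => pow_mul_bd_le S k _)
    (summable_bd hT (S + k))
  exact mul_nonneg (pow_nonneg (add_nonneg zero_le_one
    (Finset.sum_nonneg fun i _ => abs_nonneg _)) _) (bd_pos _ _ _).le

/-! ## The quadratic form -/

theorem Q_cont (τ : ι → ι → ℂ) : Continuous (Q τ) := by
  unfold Q
  fun_prop

theorem Q_smul (τ : ι → ι → ℂ) (c : ℝ) (x : ι → ℝ) : Q τ (c • x) = c ^ 2 * Q τ x := by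
  unfold Q
  rw [Finset.mul_sum]
  refine Finset.sum_congr rfl fun i _ => ?_
  rw [Finset.mul_sum]
  refine Finset.sum_congr rfl fun j _ => ?_
  simp only [Pi.smul_apply, smul_eq_mul]
  ring

theorem sum_sq_le (x : ι → ℝ) : ∑ i, x i ^ 2 ≤ Fintype.card ι * ‖x‖ ^ 2 := by
  calc ∑ i, x i ^ 2 ≤ ∑ _i : ι, ‖x‖ ^ 2 := by
        refine Finset.sum_le_sum fun i _ => ?_
        have h1 : |x i| ≤ ‖x‖ := by
          have := norm_le_pi_norm x i
          rwa [Real.norm_eq_abs] at this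
        rw [← sq_abs]
        exact pow_le_pow_left₀ (abs_nonneg _) h1 2
    _ = Fintype.card ι * ‖x‖ ^ 2 := by
        rw [Finset.sum_const, Finset.card_univ, nsmul_eq_mul]

theorem exists_lower {τ : ι → ι → ℂ} (hτ : τ ∈ HH ι) :
    ∃ c : ℝ, 0 < c ∧ ∀ x : ι → ℝ, c * ∑ i, x i ^ 2 ≤ Q τ x := by
  obtain ⟨c, hc, h⟩ : ∃ c : ℝ, 0 < c ∧ ∀ x ∈ sphere (0 : ι → ℝ) 1, c ≤ Q τ x := by
    rcases (sphere (0 : ι → ℝ) 1).eq_empty_or_nonempty with h0 | h0
    · exact ⟨1, one_pos, fun x hx => by rw [h0] at hx; exact absurd hx (Set.notMem_empty x)⟩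
    · obtain ⟨y, hy, hmin⟩ := (isCompact_sphere (0 : ι → ℝ) 1).exists_isMinOn h0
        (Q_cont τ).continuousOn
      refine ⟨Q τ y, hτ y ?_, fun x hx => hmin hx⟩
      intro h1
      rw [h1, mem_sphere_zero_iff_norm, norm_zero] at hy
      exact zero_ne_one hy
  refine ⟨c / (Fintype.card ι + 1), by positivity, fun x => ?_⟩
  have hsq := sum_sq_le x
  rcases eq_or_ne x 0 with rfl | hx
  · simp [Q]
  · have hn : 0 < ‖x‖ := norm_pos_iff.2 hx
    have h1 := h (‖x‖⁻¹ • x) (by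
      rw [mem_sphere_zero_iff_norm, norm_smul, norm_inv, norm_norm, inv_mul_cancel₀ hn.ne'])
    rw [Q_smul] at h1
    have h2 : c * ‖x‖ ^ 2 ≤ Q τ x := by
      rw [inv_pow, ← div_eq_inv_mul, le_div_iff₀ (by positivity)] at h1
      exact h1
    refine le_trans ?_ h2
    rw [div_mul_eq_mul_div, div_le_iff₀ (by positivity)]
    have h3 : 0 ≤ ‖x‖ ^ 2 := by positivity
    nlinarith [mul_le_mul_of_nonneg_left hsq hc.le, mul_nonneg hc.le h3]

theorem abs_Q_sub_le (τ τ' : ι → ι → ℂ) (x : ι → ℝ) :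
    |Q τ x - Q τ' x| ≤ ‖τ - τ'‖ * (Fintype.card ι * ∑ i, x i ^ 2) := by
  have h0 : Q τ x - Q τ' x = ∑ i, ∑ j, x i * x j * ((τ - τ') i j).im := by
    unfold Q
    rw [← Finset.sum_sub_distrib]
    refine Finset.sum_congr rfl fun i _ => ?_
    rw [← Finset.sum_sub_distrib]
    refine Finset.sum_congr rfl fun j _ => ?_
    rw [Pi.sub_apply, Pi.sub_apply, Complex.sub_im]
    ring
  have h1 : (∑ i, |x i|) ^ 2 ≤ Fintype.card ι * ∑ i, x i ^ 2 := by
    have := sq_sum_le_card_mul_sum_sq (s := (Finset.univ : Finset ι)) (f := fun i => |x i|)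
    simpa using this
  calc |Q τ x - Q τ' x| = |∑ i, ∑ j, x i * x j * ((τ - τ') i j).im| := by rw [h0]
    _ ≤ ∑ i, ∑ j, |x i| * |x j| * ‖τ - τ'‖ := by
        refine (Finset.abs_sum_le_sum_abs _ _).trans (Finset.sum_le_sum fun i _ => ?_)
        refine (Finset.abs_sum_le_sum_abs _ _).trans (Finset.sum_le_sum fun j _ => ?_)
        rw [abs_mul, abs_mul]
        refine mul_le_mul_of_nonneg_left ?_ (mul_nonneg (abs_nonneg _) (abs_nonneg _))
        exact (Complex.abs_im_le_norm _).trans ((norm_le_pi_norm _ j).trans (norm_le_pi_norm _ i))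
    _ = ‖τ - τ'‖ * (∑ i, |x i|) ^ 2 := by
        rw [pow_two, Finset.sum_mul_sum, Finset.mul_sum]
        refine Finset.sum_congr rfl fun i _ => ?_
        rw [Finset.mul_sum]
        exact Finset.sum_congr rfl fun j _ => by ring
    _ ≤ ‖τ - τ'‖ * (Fintype.card ι * ∑ i, x i ^ 2) :=
        mul_le_mul_of_nonneg_left h1 (norm_nonneg _)

theorem L_re (x : ι → ℝ) (τ : ι → ι → ℂ) (w : ι → ℂ) :
    (L (rc x) (τ, w)).re = -π * (Q τ x + 2 * ∑ i, x i * (w i).im) := by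
  rw [L_apply]
  have h1 : (π * I * (∑ i, ∑ j, rc x i * rc x j * τ i j)).re = -π * Q τ x := by
    have h2 : (∑ i, ∑ j, rc x i * rc x j * τ i j).im = Q τ x := by
      unfold Q rc
      rw [Complex.im_sum]
      refine Finset.sum_congr rfl fun i _ => ?_
      rw [Complex.im_sum]
      refine Finset.sum_congr rfl fun j _ => ?_
      rw [← Complex.ofReal_mul, Complex.im_ofReal_mul]
    rw [← h2, mul_assoc, Complex.re_ofReal_mul, Complex.I_mul_re]
    ring
  have h3 : (2 * π * I * ∑ i, rc x i * w i).re = -π * (2 * ∑ i, x i * (w i).im) := by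
    have h4 : (∑ i, rc x i * w i).im = ∑ i, x i * (w i).im := by
      unfold rc
      rw [Complex.im_sum]
      exact Finset.sum_congr rfl fun i _ => Complex.im_ofReal_mul _ _
    have h5 : (2 * π * I * ∑ i, rc x i * w i) = ((2 * π : ℝ) : ℂ) * (I * ∑ i, rc x i * w i) := by
      push_cast
      ring
    rw [h5, Complex.re_ofReal_mul, Complex.I_mul_re, h4]
    ring
  rw [Complex.add_re, h1, h3]
  ring

/-- uniform local bound -/
theorem exists_bound (P₀ : PP ι) (h₀ : P₀.1 ∈ HH ι) :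
    ∃ δ T S : ℝ, 0 < δ ∧ 0 < T ∧ 0 ≤ S ∧ ∀ P ∈ ball P₀ δ, P.1 ∈ HH ι ∧
      ∀ x : ι → ℝ, ‖cexp (L (rc x) P)‖ ≤ bd T S x := by
  obtain ⟨c, hc, hlow⟩ := exists_lower h₀
  set N : ℝ := Fintype.card ι + 1 with hN
  have hN0 : 0 < N := by positivity
  refine ⟨c / (2 * N), c / 2, ‖P₀.2‖ + c / (2 * N), by positivity, by positivity, by positivity,
    fun P hP => ?_⟩
  rw [mem_ball, dist_eq_norm] at hP
  have h1 : ‖P.1 - P₀.1‖ ≤ c / (2 * N) := (norm_fst_le (P - P₀)).trans hP.le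
  have h2 : ‖P.2 - P₀.2‖ ≤ c / (2 * N) := (norm_snd_le (P - P₀)).trans hP.le
  have h3 : ∀ x : ι → ℝ, c / 2 * ∑ i, x i ^ 2 ≤ Q P.1 x := by
    intro x
    have h4 := abs_Q_sub_le P.1 P₀.1 x
    have h5 := hlow x
    have h6 : 0 ≤ ∑ i, x i ^ 2 := Finset.sum_nonneg fun i _ => sq_nonneg _
    have h7 : ‖P.1 - P₀.1‖ * (Fintype.card ι * ∑ i, x i ^ 2) ≤ c / 2 * ∑ i, x i ^ 2 := by
      calc ‖P.1 - P₀.1‖ * (Fintype.card ι * ∑ i, x i ^ 2)
          ≤ c / (2 * N) * (N * ∑ i, x i ^ 2) := by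
            refine mul_le_mul h1 (mul_le_mul_of_nonneg_right (by rw [hN]; linarith) h6)
              (by positivity) (by positivity)
        _ = c / 2 * ∑ i, x i ^ 2 := by
            field_simp
    have h8 := (abs_le.1 h4).1
    linarith
  refine ⟨fun x hx => ?_, fun x => ?_⟩
  · refine lt_of_lt_of_le ?_ (h3 x)
    obtain ⟨i, hi⟩ := Function.ne_iff.1 hx
    have : 0 < ∑ i, x i ^ 2 :=
      Finset.sum_pos' (fun i _ => sq_nonneg _) ⟨i, Finset.mem_univ _, by
        have : x i ≠ 0 := hi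
        positivity⟩
    positivity
  · rw [Complex.norm_exp, bd]
    apply Real.exp_le_exp.2
    rw [show P = (P.1, P.2) from rfl, L_re]
    have h4 : |∑ i, x i * (P.2 i).im| ≤ (‖P₀.2‖ + c / (2 * N)) * ∑ i, |x i| := by
      rw [Finset.mul_sum]
      refine (Finset.abs_sum_le_sum_abs _ _).trans (Finset.sum_le_sum fun i _ => ?_)
      rw [abs_mul, mul_comm]
      refine mul_le_mul_of_nonneg_right ?_ (abs_nonneg _)
      refine (Complex.abs_im_le_norm _).trans ((norm_le_pi_norm _ i).trans ?_)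
      calc ‖P.2‖ = ‖P₀.2 + (P.2 - P₀.2)‖ := by rw [add_sub_cancel]
        _ ≤ _ := (norm_add_le _ _).trans (by linarith)
    have h5 := (abs_le.1 h4).1
    have h6 := h3 x
    have h7 : c / 2 * ∑ i, x i ^ 2 - 2 * (‖P₀.2‖ + c / (2 * N)) * ∑ i, |x i| ≤
        Q P.1 x + 2 * ∑ i, x i * (P.2 i).im := by linarith
    have h8 := mul_le_mul_of_nonneg_left h7 Real.pi_pos.le
    linarith

theorem isOpen_HH : IsOpen (HH ι) := by
  rw [Metric.isOpen_iff]
  intro τ hτ
  obtain ⟨δ, T, S, hδ, -, -, h⟩ := exists_bound (τ, 0) hτ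
  refine ⟨δ, hδ, fun τ' hτ' => (h (τ', 0) ?_).1⟩
  rw [mem_ball, dist_eq_norm] at hτ' ⊢
  rw [Prod.mk_sub_mk, sub_zero, Prod.norm_mk, norm_zero]
  exact max_lt hτ' hδ

omit [Fintype ι] in
theorem ic_eq_rc (m : ι → ℤ) : ic m = rc fun i => (m i : ℝ) := by
  funext i
  simp [ic, rc]

theorem summable_norm_th (k : ℕ) {τ : ι → ι → ℂ} (hτ : τ ∈ HH ι) (w : ι → ℂ) :
    Summable fun m : ι → ℤ => (1 + ∑ i, |(m i : ℝ)|) ^ k * ‖cexp (L (ic m) (τ, w))‖ := by
  obtain ⟨δ, T, S, hδ, hT, -, h⟩ := exists_bound (τ, w) hτ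
  refine Summable.of_nonneg_of_le (fun m => ?_) (fun m => ?_) (summable_pow_mul_bd hT S k)
  · exact mul_nonneg (pow_nonneg (add_nonneg zero_le_one
      (Finset.sum_nonneg fun i _ => abs_nonneg _)) _) (norm_nonneg _)
  · refine mul_le_mul_of_nonneg_left ?_ (pow_nonneg (add_nonneg zero_le_one
      (Finset.sum_nonneg fun i _ => abs_nonneg _)) _)
    rw [ic_eq_rc]
    exact (h (τ, w) (mem_ball_self hδ)).2 _

theorem summable_th {τ : ι → ι → ℂ} (hτ : τ ∈ HH ι) (w : ι → ℂ) :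
    Summable fun m : ι → ℤ => cexp (L (ic m) (τ, w)) := by
  have h := summable_norm_th 0 hτ w
  simp only [pow_zero, one_mul] at h
  exact h.of_norm

theorem norm_L_le (x : ι → ℂ) : ‖L x‖ ≤ 2 * π * (1 + ∑ i, ‖x i‖) ^ 2 := by
  have hs : 0 ≤ ∑ i, ‖x i‖ := Finset.sum_nonneg fun i _ => norm_nonneg _
  refine ContinuousLinearMap.opNorm_le_bound _ (by positivity) fun P => ?_
  rw [show P = (P.1, P.2) from rfl, L_apply]
  have h1 : ‖∑ i, ∑ j, x i * x j * P.1 i j‖ ≤ (∑ i, ‖x i‖) ^ 2 * ‖P‖ := by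
    calc ‖∑ i, ∑ j, x i * x j * P.1 i j‖ ≤ ∑ i, ∑ j, ‖x i‖ * ‖x j‖ * ‖P‖ := by
          refine norm_sum_le_of_le _ fun i _ => norm_sum_le_of_le _ fun j _ => ?_
          rw [norm_mul, norm_mul]
          refine mul_le_mul_of_nonneg_left ?_ (by positivity)
          exact (norm_le_pi_norm _ j).trans ((norm_le_pi_norm _ i).trans (norm_fst_le P))
      _ = (∑ i, ‖x i‖) ^ 2 * ‖P‖ := by
          rw [pow_two, Finset.sum_mul_sum, Finset.sum_mul]
          refine Finset.sum_congr rfl fun i _ => ?_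
          rw [Finset.sum_mul]
  have h2 : ‖∑ i, x i * P.2 i‖ ≤ (∑ i, ‖x i‖) * ‖P‖ := by
    rw [Finset.sum_mul]
    refine norm_sum_le_of_le _ fun i _ => ?_
    rw [norm_mul]
    refine mul_le_mul_of_nonneg_left ?_ (norm_nonneg _)
    exact (norm_le_pi_norm _ i).trans (norm_snd_le P)
  have h3 : ‖(π : ℂ) * I‖ = π := by
    rw [norm_mul, Complex.norm_I, mul_one, Complex.norm_real, Real.norm_of_nonneg Real.pi_pos.le]
  have h4 : ‖2 * (π : ℂ) * I‖ = 2 * π := by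
    rw [mul_assoc, norm_mul, h3, Complex.norm_two]
  calc ‖π * I * (∑ i, ∑ j, x i * x j * P.1 i j) + 2 * π * I * ∑ i, x i * P.2 i‖
      ≤ π * ((∑ i, ‖x i‖) ^ 2 * ‖P‖) + 2 * π * ((∑ i, ‖x i‖) * ‖P‖) := by
        refine (norm_add_le _ _).trans (add_le_add ?_ ?_)
        · rw [norm_mul, h3]
          exact mul_le_mul_of_nonneg_left h1 Real.pi_pos.le
        · rw [norm_mul, h4]
          exact mul_le_mul_of_nonneg_left h2 (by positivity)
    _ ≤ 2 * π * (1 + ∑ i, ‖x i‖) ^ 2 * ‖P‖ := by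
        have h5 : π * ((∑ i, ‖x i‖) ^ 2 * ‖P‖) + 2 * π * ((∑ i, ‖x i‖) * ‖P‖) =
          π * ‖P‖ * ((∑ i, ‖x i‖) ^ 2 + 2 * ∑ i, ‖x i‖) := by ring
        rw [h5, show 2 * π * (1 + ∑ i, ‖x i‖) ^ 2 * ‖P‖ =
          π * ‖P‖ * (2 * (1 + ∑ i, ‖x i‖) ^ 2) by ring]
        refine mul_le_mul_of_nonneg_left ?_ (by positivity)
        nlinarith

/-- the theta series may be differentiated termwise -/
theorem hasFDerivAt_th (P₀ : PP ι) (h₀ : P₀.1 ∈ HH ι) :
    HasFDerivAt (fun P : PP ι => th P.1 P.2)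
      (∑' m : ι → ℤ, cexp (L (ic m) P₀) • L (ic m)) P₀ := by
  obtain ⟨δ, T, S, hδ, hT, -, h⟩ := exists_bound P₀ h₀
  have hu : Summable fun m : ι → ℤ => 2 * π * ((1 + ∑ i, |(m i : ℝ)|) ^ 2 *
    bd T S fun i => (m i : ℝ)) := (summable_pow_mul_bd hT S 2).mul_left _
  refine hasFDerivAt_tsum_of_isPreconnected (𝕜 := ℂ) hu isOpen_ball
    (convex_ball P₀ δ).isPreconnected (f := fun m P => cexp (L (ic m) P))
    (f' := fun m P => cexp (L (ic m) P) • L (ic m)) ?_ ?_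
    (mem_ball_self hδ) (summable_th h₀ P₀.2) (mem_ball_self hδ)
  · intro m P _
    exact (L (ic m)).hasFDerivAt.cexp
  · intro m P hP
    rw [norm_smul]
    have h1 : ‖cexp (L (ic m) P)‖ ≤ bd T S fun i => (m i : ℝ) := by
      rw [ic_eq_rc]
      exact (h P hP).2 _
    have h2 : ‖L (ic m)‖ ≤ 2 * π * (1 + ∑ i, |(m i : ℝ)|) ^ 2 := by
      have := norm_L_le (ic m)
      simpa [ic] using this
    calc ‖cexp (L (ic m) P)‖ * ‖L (ic m)‖
        ≤ (bd T S fun i => (m i : ℝ)) * (2 * π * (1 + ∑ i, |(m i : ℝ)|) ^ 2) :=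
          mul_le_mul h1 h2 (norm_nonneg _) (bd_pos _ _ _).le
      _ = _ := by ring

/-- the theta function is analytic in both variables -/
theorem analyticAt_th (P₀ : PP ι) (h₀ : P₀.1 ∈ HH ι) :
    AnalyticAt ℂ (fun P : PP ι => th P.1 P.2) P₀ := by
  have h1 : U.Osgood.Hol (fun P : PP ι => th P.1 P.2) P₀ := by
    have h2 : ∀ᶠ P in 𝓝 P₀, P.1 ∈ HH ι :=
      continuous_fst.continuousAt.eventually (isOpen_HH.mem_nhds h₀)
    filter_upwards [h2] with P hP
    exact (hasFDerivAt_th P hP).differentiableAt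
  exact h1.analyticAt

end Pool.Agent.Lib.MPf11a48.SH.TH
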